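import Pool.Agent.Y359.CP.D

/-!
# The theorem of Erdos and Stone for powers of cycles, all chromatic numbers

For every `k ≥ 2` the least number `f k n r` of edges which forces a complete graph `K_k` in a
subgraph of the power `G_{n,r}` of a cycle is `(c_k + o(1)) r n` (for `k = 3` this is the
conjecture of Chung and Trotter), the constant `c_k` is a supremum of finite extremal numbers, and
every graph `H` of chromatic number `k` is contained in every subgraph of `G_{n,r}` with at least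
`(c_k + ε) r n` edges (for `k = 3` this is the question of Sos).

Proof (`Pool.Agent.Y359.CP.*`): few copies of `K_k` in windows of bounded relative length by the
theorem of Erdos on complete multipartite hypergraphs, random samples with one vertex in each
block, and blow-ups.  No removal lemma is used.
-/

set_option autoImplicit false

namespace Pool.Agent.Results.MP_f19a21_co.AllChromaticNumbers

open Pool.Agent.Results.MP_f19a21_co.CyclePowers (cyclePower)

/-- `f k n r` is the least `m` such that every subgraph with `m` edges of the `r`-th power of the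
cycle on `n` vertices contains a complete graph on `k` vertices. -/
noncomputable def f (k n r : ℕ) : ℕ :=
  sInf {m : ℕ | ∀ F : SimpleGraph (Fin n), F ≤ cyclePower n r → F.edgeSet.ncard = m →
    ¬ F.CliqueFree k}

/-- The constant: the upper limit, as `r → ∞`, of the upper limit, as `n → ∞`, of
`f k n r / (r n)`. -/
noncomputable def c (k : ℕ) : ℝ :=
  Filter.limsup (fun r : ℕ => Filter.limsup (fun n : ℕ => (f k n r : ℝ) / (r * n)) Filter.atTop)
    Filter.atTop

/-- The extremal numbers of finite windows: `e(T) / (m (s + 1))` for the graphs `T` on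
`0, ..., m - 1` without `K_k` all of whose edges join vertices of difference at most `s`. -/
def windowDensities (k : ℕ) : Set ℝ :=
  {x : ℝ | ∃ (m s : ℕ) (T : SimpleGraph (Fin m)), 1 ≤ m ∧ T.CliqueFree k ∧
    (∀ i j, T.Adj i j → (j : ℕ) ≤ i + s) ∧ x = (T.edgeSet.ncard : ℝ) / (m * (s + 1))}

open Pool.Agent.Y359.CP

theorem f_le (k n r : ℕ) : f k n r ≤ r * n + 1 := by
  apply Nat.sInf_le
  intro F hF hcard
  have := CyclePowers.edges_le hF
  omega

theorem f_mem (k n r : ℕ) : ∀ F : SimpleGraph (Fin n), F ≤ cyclePower n r →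
    F.edgeSet.ncard = f k n r → ¬ F.CliqueFree k := by
  have hne : {m : ℕ | ∀ F : SimpleGraph (Fin n), F ≤ cyclePower n r → F.edgeSet.ncard = m →
      ¬ F.CliqueFree k}.Nonempty := by
    refine ⟨r * n + 1, fun F hF hcard => ?_⟩
    have := CyclePowers.edges_le hF
    omega
  exact Nat.sInf_mem hne

theorem lt_f {k n r : ℕ} {T : SimpleGraph (Fin n)} (hT : T ≤ cyclePower n r)
    (hfree : T.CliqueFree k) : T.edgeSet.ncard < f k n r := by
  by_contra hcon
  push Not at hcon
  obtain ⟨S, hS, hcard⟩ := Set.exists_subset_card_eq hcon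
  set F : SimpleGraph (Fin n) := SimpleGraph.fromEdgeSet S with hF
  have hFe : F.edgeSet = S := by
    rw [hF, SimpleGraph.edgeSet_fromEdgeSet]
    ext e
    constructor
    · intro h; exact h.1
    · intro h
      exact ⟨h, T.not_isDiag_of_mem_edgeSet (hS h)⟩
  have hFT : F ≤ T := by
    rw [← SimpleGraph.edgeSet_subset_edgeSet, hFe]
    exact hS
  exact f_mem k n r F (hFT.trans hT) (by rw [hFe, hcard]) (hfree.anti hFT)

/-- the asymptotic formula with the constant `C k` -/
theorem asymp {k : ℕ} (hk : 2 ≤ k) (ε : ℝ) (hε : 0 < ε) :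
    ∃ r₀ : ℕ, ∀ r : ℕ, r₀ ≤ r → ∃ n₀ : ℕ, ∀ n : ℕ, n₀ ≤ n →
      |(f k n r : ℝ) - C k * ((r : ℝ) * n)| ≤ ε * ((r : ℝ) * n) := by
  have hcol : (SimpleGraph.completeGraph (Fin k)).Colorable k :=
    ⟨SimpleGraph.Coloring.mk id (fun {a b} hab => hab.ne)⟩
  obtain ⟨r1, hr1⟩ := upper hk (SimpleGraph.completeGraph (Fin k)) hcol (ε / 2) (by positivity)
  obtain ⟨r2, hr2⟩ := lower hk ε hε
  refine ⟨max (max r1 r2) 1, fun r hr => ?_⟩
  obtain ⟨n1, hn1⟩ := hr1 r (le_trans (le_trans (le_max_left _ _) (le_max_left _ _)) hr)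
  obtain ⟨n2, hn2⟩ := hr2 r (le_trans (le_trans (le_max_right _ _) (le_max_left _ _)) hr)
  have hr0 : 1 ≤ r := le_trans (le_max_right _ _) hr
  have hr0' : (1 : ℝ) ≤ r := by exact_mod_cast hr0
  refine ⟨max (max n1 n2) (⌈2 / ε⌉₊ + 1), fun n hn => ?_⟩
  have h1 := hn1 n (le_trans (le_trans (le_max_left _ _) (le_max_left _ _)) hn)
  obtain ⟨T, hT, hfree, hTe⟩ := hn2 n (le_trans (le_trans (le_max_right _ _) (le_max_left _ _)) hn)
  have hn3 : ⌈2 / ε⌉₊ + 1 ≤ n := le_trans (le_max_right _ _) hn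
  have hn4 : 2 / ε ≤ n := by
    refine (Nat.le_ceil _).trans ?_
    exact_mod_cast (by omega : ⌈2 / ε⌉₊ ≤ n)
  rw [div_le_iff₀ hε] at hn4
  have hn0 : (0 : ℝ) ≤ n := by positivity
  have hone : 1 ≤ ε / 2 * ((r : ℝ) * n) := by nlinarith
  have hlow : (C k - ε) * ((r : ℝ) * n) ≤ (f k n r : ℝ) := by
    refine hTe.trans ?_
    exact_mod_cast (lt_f hT hfree).le
  have hC0 := C_nonneg hk
  have hX0 : 0 ≤ (C k + ε / 2) * ((r : ℝ) * n) := by positivity
  have hup : (f k n r : ℝ) ≤ (C k + ε / 2) * ((r : ℝ) * n) + 1 := by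
    have h2 : f k n r ≤ ⌊(C k + ε / 2) * ((r : ℝ) * n)⌋₊ + 1 := by
      apply Nat.sInf_le
      intro F hF hcard hFfree
      have h3 := h1 F hF (fun hcont => hcont.not_cliqueFree hFfree)
      have h4 := Nat.lt_floor_add_one ((C k + ε / 2) * ((r : ℝ) * n))
      rw [hcard] at h3
      push_cast at h3
      linarith
    have h3 : (f k n r : ℝ) ≤ (⌊(C k + ε / 2) * ((r : ℝ) * n)⌋₊ : ℝ) + 1 := by exact_mod_cast h2
    have h4 := Nat.floor_le hX0
    linarith
  rw [abs_le]
  constructor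
  · have : (C k - ε) * ((r : ℝ) * n) = C k * (r * n) - ε * (r * n) := by ring
    linarith
  · have : (C k + ε / 2) * ((r : ℝ) * n) = C k * (r * n) + ε / 2 * (r * n) := by ring
    linarith

/-- the constant of the problem is `C k` -/
theorem c_eq {k : ℕ} (hk : 2 ≤ k) : c k = C k := by
  unfold c
  apply Filter.Tendsto.limsup_eq
  rw [Metric.tendsto_atTop]
  intro ε hε
  obtain ⟨r0, hr0⟩ := asymp hk (ε / 2) (by positivity)
  refine ⟨max r0 1, fun r hr => ?_⟩
  obtain ⟨n0, hn0⟩ := hr0 r (le_trans (le_max_left _ _) hr)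
  have hr1 : 1 ≤ r := le_trans (le_max_right _ _) hr
  have hr1' : (1 : ℝ) ≤ r := by exact_mod_cast hr1
  have hb : ∀ n : ℕ, max n0 1 ≤ n → C k - ε / 2 ≤ (f k n r : ℝ) / (r * n) ∧
      (f k n r : ℝ) / (r * n) ≤ C k + ε / 2 := by
    intro n hn
    have h1 := hn0 n (le_trans (le_max_left _ _) hn)
    have hn1 : (1 : ℝ) ≤ n := by exact_mod_cast (le_trans (le_max_right _ _) hn)
    have hpos : (0 : ℝ) < r * n := by positivity
    rw [abs_le] at h1
    constructor
    · rw [le_div_iff₀ hpos]; linarith [h1.1]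
    · rw [div_le_iff₀ hpos]; linarith [h1.2]
  have hev1 : ∀ᶠ n : ℕ in Filter.atTop, (f k n r : ℝ) / (r * n) ≤ C k + ε / 2 := by
    filter_upwards [Filter.eventually_ge_atTop (max n0 1)] with n hn
    exact (hb n hn).2
  have hev2 : ∀ᶠ n : ℕ in Filter.atTop, C k - ε / 2 ≤ (f k n r : ℝ) / (r * n) := by
    filter_upwards [Filter.eventually_ge_atTop (max n0 1)] with n hn
    exact (hb n hn).1
  have hcob : Filter.IsCoboundedUnder (· ≤ ·) Filter.atTop
      (fun n : ℕ => (f k n r : ℝ) / (r * n)) := by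
    apply Filter.IsBoundedUnder.isCoboundedUnder_le
    refine ⟨0, ?_⟩
    rw [Filter.eventually_map]
    exact Filter.Eventually.of_forall fun n => by positivity
  have hbdd : Filter.IsBoundedUnder (· ≤ ·) Filter.atTop
      (fun n : ℕ => (f k n r : ℝ) / (r * n)) := ⟨C k + ε / 2, by
    rw [Filter.eventually_map]; exact hev1⟩
  have h1 : Filter.limsup (fun n : ℕ => (f k n r : ℝ) / (r * n)) Filter.atTop ≤ C k + ε / 2 :=
    Filter.limsup_le_of_le hcob hev1
  have h2 : C k - ε / 2 ≤ Filter.limsup (fun n : ℕ => (f k n r : ℝ) / (r * n)) Filter.atTop := by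
    apply Filter.le_limsup_of_le hbdd
    intro b hb'
    obtain ⟨n, hn1, hn2⟩ := (hev2.and hb').exists
    exact hn1.trans hn2
  rw [Real.dist_eq, abs_lt]
  constructor <;> linarith

/-- **The theorem of Erdos and Stone for powers of cycles.**  Let `k ≥ 2`.
(1) `f k n r = (c k + o(1)) r n` as `r → ∞` and `n → ∞` (`n ≥ n₀ (r)`).
(2) For every graph `H` of chromatic number `k` and every `ε > 0`, for all `r ≥ r₀` and
`n ≥ n₀ (r)`, every subgraph of the cycle power with at least `(c k + ε) r n` edges contains `H`.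
(3) `c k` is the supremum of the densities `e(T) / (m (s + 1))` of finite windows. -/
theorem result (k : ℕ) (hk : 2 ≤ k) :
    (∀ ε : ℝ, 0 < ε → ∃ r₀ : ℕ, ∀ r : ℕ, r₀ ≤ r → ∃ n₀ : ℕ, ∀ n : ℕ, n₀ ≤ n →
      |(f k n r : ℝ) - c k * ((r : ℝ) * n)| ≤ ε * ((r : ℝ) * n)) ∧
    (∀ (W : Type) [Fintype W] (H : SimpleGraph W), H.chromaticNumber = k →
      ∀ ε : ℝ, 0 < ε → ∃ r₀ : ℕ, ∀ r : ℕ, r₀ ≤ r → ∃ n₀ : ℕ, ∀ n : ℕ, n₀ ≤ n →
        ∀ F : SimpleGraph (Fin n), F ≤ cyclePower n r →
          (c k + ε) * ((r : ℝ) * (n : ℝ)) ≤ (F.edgeSet.ncard : ℝ) → H.IsContained F) ∧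
    IsLUB (windowDensities k) (c k) := by
  rw [c_eq hk]
  refine ⟨fun ε hε => asymp hk ε hε, ?_, ?_⟩
  · intro W _ H hχ ε hε
    have hcol : H.Colorable k := by
      rw [← SimpleGraph.chromaticNumber_le_iff_colorable, hχ]
    obtain ⟨r0, hr0⟩ := upper hk H hcol (ε / 2) (by positivity)
    refine ⟨max r0 1, fun r hr => ?_⟩
    obtain ⟨n0, hn0⟩ := hr0 r (le_trans (le_max_left _ _) hr)
    have hr1 : (1 : ℝ) ≤ r := by exact_mod_cast (le_trans (le_max_right _ _) hr)
    refine ⟨max n0 1, fun n hn F hF hcard => ?_⟩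
    have hn1 : (1 : ℝ) ≤ n := by exact_mod_cast (le_trans (le_max_right _ _) hn)
    by_contra hcon
    have h1 := hn0 n (le_trans (le_max_left _ _) hn) F hF hcon
    have h2 : (0 : ℝ) < ε / 2 * (r * n) := by positivity
    have h3 : (C k + ε) * ((r : ℝ) * n) = (C k + ε / 2) * (r * n) + ε / 2 * (r * n) := by ring
    linarith
  · have hset : windowDensities k = {x : ℝ | ∃ (m s : ℕ) (T : SimpleGraph (Fin m)), 1 ≤ m ∧
        Loc k m s T ∧ x = (T.edgeSet.ncard : ℝ) / (m * (s + 1))} := by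
      ext x
      constructor
      · rintro ⟨m, s, T, hm, h1, h2, hx⟩
        exact ⟨m, s, T, hm, ⟨h1, h2⟩, hx⟩
      · rintro ⟨m, s, T, hm, h, hx⟩
        exact ⟨m, s, T, hm, h.free, h.len, hx⟩
    rw [hset]
    apply isLUB_csSup
    · exact ⟨_, 1, 0, ⊥, le_rfl, bot_loc hk, rfl⟩
    · exact bddAbove_C k

end Pool.Agent.Results.MP_f19a21_co.AllChromaticNumbers
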